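import Pool.Agent.Q80.AC.All
import Pool.Agent.Q80.AC.Short
import Pool.Agent.Q62.AC.LSER
import Pool.Agent.Q62.AC.AMN
import Pool.Agent.Q129.AC.U0

/-!
# Absolutely continuous convolution semigroups on every second countable locally compact group and on its dual
-/

set_option autoImplicit false

namespace Pool.Agent.Results.MP_5d826d_an.EverySecondCountableGroup

open MeasureTheory Topology Filter
open Pool.Agent.Q80.AC

/-- `H` is a second countable locally compact group with left Haar measure `m`. (1) `Side1`: there is a
`w^*`-continuous convolution semigroup `μ` of probability measures on `H` such that `μ t` is absolutely continuous for all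
`t > 0`, `‖λ(ω * μ t) - λ(μ t)‖ → 0` as `t → ∞` for every absolutely continuous probability measure `ω`, and, if `H` is
amenable, `‖λ(μ t)‖ = 1` for `t > 0`. (2) If `H` is amenable, `Side2`: there is a `w^*`-continuous convolution semigroup
`φ` on the dual of `H` with `φ t ∈ A(H)` for `t > 0` and `sup_g |ω(g) φ_t(g) - φ_t(g)| → 0` as `t → ∞` for every
positive-definite `ω ∈ A(H)` with `ω(e) = 1`. -/
theorem result (H : Type) [Group H] [TopologicalSpace H] [IsTopologicalGroup H] [LocallyCompactSpace H]
    [SecondCountableTopology H] [T2Space H] [MeasurableSpace H] [BorelSpace H] (m : Measure H) [m.IsHaarMeasure] :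
    Side1 m ∧ (Reiter m → Side2 m) := by
  have lser : S_LSER := Pool.Agent.Q62.AC.LSER.t_LSER All.pow All.lmul
  have amn : S_AMN := Pool.Agent.Q62.AC.AMN.t_AMN All.ltv
  have u0 : S_U0 := Q129.AC.U0.t_U0 All.coef All.pdlim
  exact ⟨side1_of m (side1 All.seq All.len All.conv All.sg' All.acl All.wcl All.lmul All.ltv (All.rate lser) All.tvc
    All.serprob amn H m), fun hRe => side2_of m (side2 (All.psi u0) All.rb All.rpd All.rfa All.dsup All.dw H m hRe)⟩

end Pool.Agent.Results.MP_5d826d_an.EverySecondCountableGroup
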